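import Pool.Agent.R161.GR.Defs

/-!
# GR-EXT (MP_57d9fd_an): extension of orthonormal frames
-/

namespace Pool.Agent.R193.GR

open Pool.Agent.R161.GR

/-- index type with `n` elements -/
abbrev Ix (n : ℕ) : Type := (Fin (n / 2) ⊕ Fin (n / 2)) ⊕ Fin (n - 2 * (n / 2))

theorem inner_toLp {n : ℕ} (u w : Fin n → ℝ) :
    inner ℝ (WithLp.toLp 2 u : EuclideanSpace ℝ (Fin n)) (WithLp.toLp 2 w) = ∑ p, u p * w p := by
  simp [PiLp.inner_apply, mul_comm]

/-- the partial family -/
noncomputable def vv {n κ : ℕ} (x y : Fin κ → Fin n → ℝ) : Ix n → EuclideanSpace ℝ (Fin n)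
  | Sum.inl (Sum.inl a) => if h : a.1 < κ then WithLp.toLp 2 (x ⟨a, h⟩) else 0
  | Sum.inl (Sum.inr a) => if h : a.1 < κ then WithLp.toLp 2 (y ⟨a, h⟩) else 0
  | Sum.inr _ => 0

/-- the indices where it is given -/
def ss (n κ : ℕ) : Set (Ix n) := {i | ∃ a : Fin (n / 2), a.1 < κ ∧
  (i = Sum.inl (Sum.inl a) ∨ i = Sum.inl (Sum.inr a))}

theorem s_ext : S_ext := by
  intro n κ h x y hf
  obtain ⟨hx, hy, hxy⟩ := hf
  have hcard : Module.finrank ℝ (EuclideanSpace ℝ (Fin n)) = Fintype.card (Ix n) := by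
    rw [finrank_euclideanSpace_fin, Fintype.card_sum, Fintype.card_sum, Fintype.card_fin,
      Fintype.card_fin]
    omega
  have hyx : ∀ a b, ∑ p, y a p * x b p = 0 := by
    intro a b
    rw [← hxy b a]
    exact Finset.sum_congr rfl (fun p _ => mul_comm _ _)
  have hin : ∀ i ∈ ss n κ, ∀ j ∈ ss n κ,
      inner ℝ (vv x y i) (vv x y j) = if i = j then (1 : ℝ) else 0 := by
    intro i hi j hj
    obtain ⟨a, ha, hi⟩ := hi
    obtain ⟨b, hb, hj⟩ := hj
    have hab : ((⟨a.1, ha⟩ : Fin κ) = ⟨b.1, hb⟩) ↔ a = b := by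
      rw [Fin.mk.injEq, Fin.ext_iff]
    rcases hi with rfl | rfl <;> rcases hj with rfl | rfl
    · simp only [vv, dif_pos ha, dif_pos hb, inner_toLp, hx, hab, Sum.inl.injEq]
    · simp only [vv, dif_pos ha, dif_pos hb, inner_toLp, hxy]
      simp
    · simp only [vv, dif_pos ha, dif_pos hb, inner_toLp, hyx]
      simp
    · simp only [vv, dif_pos ha, dif_pos hb, inner_toLp, hy, hab, Sum.inl.injEq,
        Sum.inr.injEq]
  have hv : Orthonormal ℝ ((ss n κ).domRestrict (vv x y)) := by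
    rw [orthonormal_iff_ite]
    intro i j
    have h1 := hin i.1 i.2 j.1 j.2
    rw [Set.domRestrict_apply, Set.domRestrict_apply, h1]
    by_cases h2 : i = j
    · rw [if_pos h2, if_pos (congrArg Subtype.val h2)]
    · rw [if_neg h2, if_neg (fun h3 => h2 (Subtype.ext h3))]
  obtain ⟨b, hb⟩ := hv.exists_orthonormalBasis_extension_of_card_eq hcard
  have hbo := orthonormal_iff_ite.1 b.orthonormal
  have key : ∀ i j : Ix n, ∑ p, (b i) p * (b j) p = if i = j then 1 else 0 := by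
    intro i j
    rw [← hbo i j, ← inner_toLp]
  refine ⟨fun a p => b (Sum.inl (Sum.inl a)) p, fun a p => b (Sum.inl (Sum.inr a)) p,
    ⟨?_, ?_, ?_⟩, ?_, ?_⟩
  · intro a c
    have := key (Sum.inl (Sum.inl a)) (Sum.inl (Sum.inl c))
    simp only [Sum.inl.injEq] at this
    exact this
  · intro a c
    have := key (Sum.inl (Sum.inr a)) (Sum.inl (Sum.inr c))
    simp only [Sum.inl.injEq, Sum.inr.injEq] at this
    exact this
  · intro a c
    have := key (Sum.inl (Sum.inl a)) (Sum.inl (Sum.inr c))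
    simpa using this
  · intro a
    funext p
    have hlt : (Fin.castLE h a).1 < κ := a.2
    have h1 := hb (Sum.inl (Sum.inl (Fin.castLE h a))) ⟨Fin.castLE h a, hlt, Or.inl rfl⟩
    show b (Sum.inl (Sum.inl (Fin.castLE h a))) p = x a p
    rw [h1]
    simp only [vv, dif_pos hlt]
    rfl
  · intro a
    funext p
    have hlt : (Fin.castLE h a).1 < κ := a.2
    have h1 := hb (Sum.inl (Sum.inr (Fin.castLE h a))) ⟨Fin.castLE h a, hlt, Or.inr rfl⟩
    show b (Sum.inl (Sum.inr (Fin.castLE h a))) p = y a p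
    rw [h1]
    simp only [vv, dif_pos hlt]
    rfl

end Pool.Agent.R193.GR
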